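import Pool.Agent.helper50.PHN.Spec

/-!
# DIS: the distortion method, conclusion
-/

set_option autoImplicit false

namespace Pool.Agent.PHN

open Finset

theorem DIS_lp_prime {m : ℕ} (h : 2 ≤ lp m) : (lp m).Prime := by
  by_cases hne : m.primeFactors.Nonempty
  · obtain ⟨p, hp, hp2⟩ := Finset.exists_mem_eq_sup m.primeFactors hne id
    have h1 : lp m = p := hp2
    rw [h1]
    exact Nat.prime_of_mem_primeFactors hp
  · rw [Finset.not_nonempty_iff_eq_empty] at hne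
    unfold lp at h
    rw [hne] at h
    simp at h

theorem DIS_weight (hINI : INI_stmt) (hSTP : STP_stmt) (D : Sys) (k : ℕ) : ∃ w : ℤ → ℝ, Inv D (D.q0 + k) w := by
  induction k with
  | zero => exact ⟨_, hINI D⟩
  | succ k ih =>
    obtain ⟨w, hw⟩ := ih
    obtain ⟨w', hw'⟩ := hSTP D (D.q0 + k) w (Nat.le_add_right _ _) hw
    exact ⟨w', hw'⟩

theorem DIS_mu_mono {T : ℕ} {f g : ℤ → ℝ} (h : ∀ x, f x ≤ g x) : mu T f ≤ mu T g := by
  unfold mu
  exact div_le_div_of_nonneg_right (Finset.sum_le_sum fun x _ => h x) (Nat.cast_nonneg _)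

theorem DIS_mu_sum {T : ℕ} {ι : Type} (s : Finset ι) (f : ι → ℤ → ℝ) :
    mu T (fun x => ∑ i ∈ s, f i x) = ∑ i ∈ s, mu T (f i) := by
  unfold mu
  rw [Finset.sum_comm, Finset.sum_div]

theorem DIS_mu_add {T : ℕ} (f g : ℤ → ℝ) : mu T (fun x => f x + g x) = mu T f + mu T g := by
  unfold mu
  rw [Finset.sum_add_distrib, add_div]

theorem DIS_gg_nonneg (D : Sys) (n : ℕ) : 0 ≤ gg D.δ D.q0 n := by
  unfold gg
  apply Finset.prod_nonneg
  intro p hp
  have := D.dpos p (Finset.mem_filter.1 hp).2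
  linarith

/-- DIS -/
theorem DIS (hINI : INI_stmt) (hSTP : STP_stmt) (hUUD : UUD_stmt) : DIS_stmt := by
  classical
  intro D Q hQ hlt
  by_contra hcon
  push Not at hcon
  obtain ⟨-, hUU⟩ := hUUD
  obtain ⟨hT1, hWT, hmT, -, -, -⟩ := hUU D
  obtain ⟨w, hw⟩ := DIS_weight hINI hSTP D (Q + D.T + 1)
  set Q' : ℕ := D.q0 + (Q + D.T + 1) with hQ'
  have hq02 : 2 ≤ D.q0 := by
    have h1 := D.W1
    have h2 := D.Wq
    omega
  have hpT : ∀ n, n ∣ D.T → ∀ p ∈ n.primeFactors, p < Q' := by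
    intro n hn p hp
    have h1 : p ∣ D.T := (Nat.dvd_of_mem_primeFactors hp).trans hn
    have h2 := Nat.le_of_dvd (by omega) h1
    omega
  set P : Finset ℕ := (Ico D.q0 Q).filter Nat.Prime with hP
  have hpt : ∀ x : ℤ, w x ≤ ∑ i ∈ D.S \ D.good, w x * ind (D.m i) (D.c i) x + ∑ q ∈ P, w x * D.iB q x := by
    intro x
    have hn1 : ∀ i ∈ D.S \ D.good, 0 ≤ w x * ind (D.m i) (D.c i) x := by
      intro i _
      apply mul_nonneg (hw.nonneg x)
      unfold ind
      split_ifs <;> simp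
    have hn2 : ∀ q ∈ P, 0 ≤ w x * D.iB q x := by
      intro q _
      apply mul_nonneg (hw.nonneg x)
      unfold Sys.iB
      split_ifs <;> simp
    by_cases hwx : w x = 0
    · rw [hwx]
      simp
    · obtain ⟨i, hiS, hi⟩ := hcon x (hw.supp x hwx)
      by_cases hg : i ∈ D.good
      · have hl1 := D.gl i hg
        have hl2 := hQ i hg
        have hlP : lp (D.m i) ∈ P := Finset.mem_filter.2 ⟨Finset.mem_Ico.2 ⟨hl1, hl2⟩, DIS_lp_prime (by omega)⟩
        have h1 : w x * D.iB (lp (D.m i)) x = w x := by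
          unfold Sys.iB
          rw [if_pos ⟨i, hg, rfl, hi⟩, mul_one]
        have h2 : w x ≤ ∑ q ∈ P, w x * D.iB q x := by
          calc w x = w x * D.iB (lp (D.m i)) x := h1.symm
            _ ≤ ∑ q ∈ P, w x * D.iB q x := Finset.single_le_sum hn2 hlP
        have h3 := Finset.sum_nonneg hn1
        linarith
      · have hmem : i ∈ D.S \ D.good := Finset.mem_sdiff.2 ⟨hiS, hg⟩
        have h1 : w x * ind (D.m i) (D.c i) x = w x := by
          unfold ind
          rw [if_pos hi, mul_one]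
        have h2 : w x ≤ ∑ i ∈ D.S \ D.good, w x * ind (D.m i) (D.c i) x := by
          calc w x = w x * ind (D.m i) (D.c i) x := h1.symm
            _ ≤ ∑ i ∈ D.S \ D.good, w x * ind (D.m i) (D.c i) x := Finset.single_le_sum hn1 hmem
        have h3 := Finset.sum_nonneg hn2
        linarith
  have h1 : (1 : ℝ) ≤ ∑ i ∈ D.S \ D.good, mu D.T (fun x => w x * ind (D.m i) (D.c i) x) +
      ∑ q ∈ P, mu D.T (fun x => w x * D.iB q x) := by
    calc (1 : ℝ) = mu D.T w := hw.one.symm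
      _ ≤ mu D.T (fun x => ∑ i ∈ D.S \ D.good, w x * ind (D.m i) (D.c i) x + ∑ q ∈ P, w x * D.iB q x) := DIS_mu_mono hpt
      _ = _ := by rw [DIS_mu_add, DIS_mu_sum, DIS_mu_sum]
  have h2 : ∑ i ∈ D.S \ D.good, mu D.T (fun x => w x * ind (D.m i) (D.c i) x) ≤
      ∑ i ∈ D.S \ D.good, (D.W : ℝ) * (gg D.δ D.q0 (D.m i) / D.m i) := by
    apply Finset.sum_le_sum
    intro i hi
    have hiS := (Finset.mem_sdiff.1 hi).1
    have h3 := hw.cls (D.m i) (D.c i) (hmT i hiS) (hpT _ (hmT i hiS))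
    rw [mul_div_assoc] at h3
    exact h3
  have h3 : ∑ q ∈ P, mu D.T (fun x => w x * D.iB q x) ≤ ∑ q ∈ P, (D.W : ℝ) * DS D.δ D.q0 D.m D.good q := by
    apply Finset.sum_le_sum
    intro q hq
    obtain ⟨hq1, hq2⟩ := Finset.mem_filter.1 hq
    rw [Finset.mem_Ico] at hq1
    exact hw.bad q hq2 hq1.1 (by omega)
  have h4 : ∑ q ∈ P, (D.W : ℝ) * DS D.δ D.q0 D.m D.good q ≤ ∑ q ∈ Ico D.q0 Q, (D.W : ℝ) * DS D.δ D.q0 D.m D.good q := by
    apply Finset.sum_le_sum_of_subset_of_nonneg (Finset.filter_subset _ _)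
    intro q hq _
    rw [Finset.mem_Ico] at hq
    apply mul_nonneg (Nat.cast_nonneg _)
    unfold DS
    apply Finset.sum_nonneg
    intro i _
    apply Finset.sum_nonneg
    intro j _
    have hd := D.dpos q hq.1
    have g1 := DIS_gg_nonneg D (D.m i)
    have g2 := DIS_gg_nonneg D (D.m j)
    positivity
  have h5 := h3.trans h4
  rw [← Finset.mul_sum] at h2 h5
  rw [mul_add] at hlt
  have h6 : ∑ q ∈ P, mu D.T (fun x => w x * D.iB q x) ≤ (D.W : ℝ) * ∑ q ∈ Ico D.q0 Q, DS D.δ D.q0 D.m D.good q := by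
    refine (h3.trans h4).trans (le_of_eq ?_)
    rw [Finset.mul_sum]
  linarith

end Pool.Agent.PHN
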