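import Pool.Agent.helper50.PHN.Spec

/-!
# MAV: averages over shifts
-/

set_option autoImplicit false

namespace Pool.Agent.PHN

open Finset

/-- MAV -/
theorem MAV (hMSH : MSH_stmt) : MAV_stmt := by
  intro T Q u f h hT hQu hf hh
  have hQ0 : Q ≠ 0 := by
    rintro rfl
    rw [zero_mul] at hQu
    omega
  have hQR : (Q : ℝ) ≠ 0 := Nat.cast_ne_zero.2 hQ0
  have hTZ : (Q : ℤ) * (u : ℤ) = (T : ℤ) := by exact_mod_cast hQu
  refine ⟨fun x => ?_, fun x => ?_, fun hfu => ?_⟩
  · unfold AV
    congr 1
    have h1 := Finset.sum_range_succ' (fun t : ℕ => h (x + t * u)) Q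
    have h2 := Finset.sum_range_succ (fun t : ℕ => h (x + t * u)) Q
    have h3 : h (x + (Q : ℤ) * (u : ℤ)) = h (x + ((0 : ℕ) : ℤ) * (u : ℤ)) := by
      rw [hTZ, hh]
      simp
    rw [h2, h3] at h1
    have h4 := add_right_cancel h1
    rw [h4]
    apply Finset.sum_congr rfl
    intro t _
    congr 1
    push_cast
    ring
  · unfold AV
    congr 1
    apply Finset.sum_congr rfl
    intro t _
    rw [← hh (x + t * u)]
    congr 1
    ring
  · have hft : ∀ (t : ℕ) (x : ℤ), f (x + t * u) = f x := by
      intro t
      induction t with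
      | zero => intro x; simp
      | succ t ih =>
        intro x
        have h1 : x + ((t + 1 : ℕ) : ℤ) * (u : ℤ) = (x + t * u) + u := by
          push_cast
          ring
        rw [h1, hfu, ih]
    have h1 : ∀ t : ℕ, mu T (fun x => f x * h (x + t * u)) = mu T (fun x => f x * h x) := by
      intro t
      rw [← hMSH T (fun x => f x * h x) (t * u) hT (fun x => by rw [hf, hh])]
      congr 1
      funext x
      rw [hft]
    have h2 : mu T (fun x => f x * AV Q u h x) = (∑ t ∈ range Q, mu T (fun x => f x * h (x + t * u))) / Q := by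
      unfold mu AV
      rw [← Finset.sum_div, Finset.sum_comm, div_right_comm]
      congr 1
      rw [Finset.sum_div]
      apply Finset.sum_congr rfl
      intro x _
      simp only [Finset.mul_sum, mul_div_assoc']
    rw [h2, Finset.sum_congr rfl (fun t _ => h1 t), Finset.sum_const, Finset.card_range, nsmul_eq_mul]
    field_simp

end Pool.Agent.PHN
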