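import Pool.Agent.helper50.PHN.Spec

/-!
# PPC: the totient takes each value at most twice on prime powers
-/

set_option autoImplicit false

namespace Pool.Agent.PHN

open Finset

theorem PPC_inj {p q i j : ℕ} (hp : p.Prime) (hq : q.Prime) (hi : 2 ≤ i) (hj : 2 ≤ j)
    (h : (p ^ i).totient = (q ^ j).totient) : p ^ i = q ^ j := by
  rw [Nat.totient_prime_pow hp (by omega), Nat.totient_prime_pow hq (by omega)] at h
  have hp2 := hp.two_le
  have hq2 := hq.two_le
  have key : ∀ {p q i j : ℕ}, p.Prime → q.Prime → 2 ≤ i → p ≠ q → p ^ (i - 1) * (p - 1) = q ^ (j - 1) * (q - 1) → p < q := by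
    intro p q i j hp hq hi hne h
    have h1 : p ∣ q ^ (j - 1) * (q - 1) := by
      rw [← h]
      exact Dvd.dvd.mul_right (dvd_pow_self p (by omega)) _
    rcases (Nat.Prime.dvd_mul hp).1 h1 with h2 | h2
    · exact absurd ((Nat.prime_dvd_prime_iff_eq hp hq).1 (hp.dvd_of_dvd_pow h2)) hne
    · have h3 := Nat.le_of_dvd (by have := hq.two_le; omega) h2
      have := hq.two_le
      omega
  by_cases hpq : p = q
  · subst hpq
    have h1 : p ^ (i - 1) = p ^ (j - 1) := Nat.eq_of_mul_eq_mul_right (by omega) h
    have h2 := Nat.pow_right_injective hp2 h1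
    have h3 : i = j := by omega
    rw [h3]
  · have h1 := key (i := i) (j := j) hp hq hi hpq h
    have h2 := key (i := j) (j := i) hq hp hj (Ne.symm hpq) h.symm
    omega

/-- PPC -/
theorem PPC : PPC_stmt := by
  classical
  intro T f hT hf
  have h1 : ∑ t ∈ T.filter Nat.Prime, f t.totient = ∑ v ∈ (T.filter Nat.Prime).image Nat.totient, f v := by
    rw [Finset.sum_image]
    intro a ha b hb hab
    have ha' := (Finset.mem_filter.1 ha).2
    have hb' := (Finset.mem_filter.1 hb).2
    simp only [Nat.totient_prime ha', Nat.totient_prime hb'] at hab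
    have := ha'.two_le
    have := hb'.two_le
    omega
  have h2 : ∑ t ∈ T.filter (fun t => ¬ Nat.Prime t), f t.totient =
      ∑ v ∈ (T.filter (fun t => ¬ Nat.Prime t)).image Nat.totient, f v := by
    rw [Finset.sum_image]
    intro a ha b hb hab
    obtain ⟨haT, ha'⟩ := Finset.mem_filter.1 ha
    obtain ⟨hbT, hb'⟩ := Finset.mem_filter.1 hb
    obtain ⟨p, i, hp, hi, rfl⟩ := (isPrimePow_nat_iff _).1 (hT _ haT)
    obtain ⟨q, j, hq, hj, rfl⟩ := (isPrimePow_nat_iff _).1 (hT _ hbT)
    have hi2 : 2 ≤ i := by
      by_contra hc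
      have : i = 1 := by omega
      subst this
      exact ha' (by rwa [pow_one])
    have hj2 : 2 ≤ j := by
      by_contra hc
      have : j = 1 := by omega
      subst this
      exact hb' (by rwa [pow_one])
    exact PPC_inj hp hq hi2 hj2 hab
  rw [← Finset.sum_filter_add_sum_filter_not T Nat.Prime, h1, h2, two_mul]
  apply add_le_add
  · exact Finset.sum_le_sum_of_subset_of_nonneg (Finset.image_subset_image (Finset.filter_subset _ _)) fun _ _ _ => hf _
  · exact Finset.sum_le_sum_of_subset_of_nonneg (Finset.image_subset_image (Finset.filter_subset _ _)) fun _ _ _ => hf _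

end Pool.Agent.PHN
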